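import Pool.Agent.W293.BK.Tl

set_option autoImplicit false
open Polynomial Topology Filter MeasureTheory
open scoped ENNReal

namespace Pool.Agent.W293.BK

open Pool.Agent.W95.BK

universe u

section
variable {K : Type u} [NontriviallyNormedField K]

theorem BA_add_le (x : BA K) (f g : K[X]) : x (f + g) ≤ max (x f) (x g) := x.map_add' f g

theorem BA_C_mul (x : BA K) (a : K) (f : K[X]) : x (C a * f) = ‖a‖ * x f := by
  have h1 := x.map_mul' (C a) f
  have h2 := x.map_C' a
  rw [h2] at h1
  exact h1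

theorem BA_sub_le (x : BA K) (f g : K[X]) (a : K) : x (f - C a * g) ≤ max (x f) (‖a‖ * x g) := by
  have e : f - C a * g = f + C (-a) * g := by
    rw [C_neg]
    ring
  rw [e]
  refine (BA_add_le x _ _).trans ?_
  rw [BA_C_mul, norm_neg]

theorem cmp [IsUltrametricDist K] (f : RMap K) (a : K) (t : ℝ) (ht : 0 < t) (M : ℝ)
    (hM : M = max (gn a t (f.P - C a * f.Q)) (t * gn a t f.Q)) :
    max (gauss a t ht f.P) (gauss a t ht f.Q) ≤ (1 + ‖a‖ + t + ‖a‖ / t + 1 / t) * M ∧
    M ≤ (1 + ‖a‖ + t + ‖a‖ / t + 1 / t) * max (gauss a t ht f.P) (gauss a t ht f.Q) := by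
  set x := gauss a t ht with hx
  set D := max (x f.P) (x f.Q) with hD
  set c := 1 + ‖a‖ + t + ‖a‖ / t + 1 / t with hc
  have e1 : gn a t (f.P - C a * f.Q) = x (f.P - C a * f.Q) := rfl
  have e2 : gn a t f.Q = x f.Q := rfl
  rw [e1, e2] at hM
  have ha : 0 ≤ ‖a‖ := norm_nonneg a
  have hat : 0 ≤ ‖a‖ / t := by positivity
  have h1t : 0 ≤ 1 / t := by positivity
  have hP0 : 0 ≤ x f.P := x.nonneg' _
  have hQ0 : 0 ≤ x f.Q := x.nonneg' _
  have hD0 : 0 ≤ D := le_max_of_le_left hP0
  have hPD : x f.P ≤ D := le_max_left _ _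
  have hQD : x f.Q ≤ D := le_max_right _ _
  have hM0 : 0 ≤ M := by
    rw [hM]
    exact le_max_of_le_left (x.nonneg' _)
  have hPM : x (f.P - C a * f.Q) ≤ M := by
    rw [hM]
    exact le_max_left _ _
  have hQM : t * x f.Q ≤ M := by
    rw [hM]
    exact le_max_right _ _
  have hQM' : x f.Q ≤ 1 / t * M := by
    rw [one_div, ← div_eq_inv_mul, le_div_iff₀ ht, mul_comm]
    exact hQM
  have c1 : (1 : ℝ) ≤ c := by rw [hc]; linarith
  have c2 : ‖a‖ ≤ c := by rw [hc]; linarith
  have c3 : t ≤ c := by rw [hc]; linarith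
  have c4 : ‖a‖ / t ≤ c := by rw [hc]; linarith
  have c5 : 1 / t ≤ c := by rw [hc]; linarith
  constructor
  · refine max_le ?_ ?_
    · have e : f.P = (f.P - C a * f.Q) - C (-a) * f.Q := by
        rw [C_neg]
        ring
      have h := BA_sub_le x (f.P - C a * f.Q) f.Q (-a)
      rw [← e, norm_neg] at h
      refine h.trans (max_le ?_ ?_)
      · refine hPM.trans ?_
        exact le_mul_of_one_le_left hM0 c1
      · have h2 : ‖a‖ * x f.Q ≤ ‖a‖ / t * M := by
          calc ‖a‖ * x f.Q ≤ ‖a‖ * (1 / t * M) := mul_le_mul_of_nonneg_left hQM' ha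
            _ = ‖a‖ / t * M := by ring
        exact h2.trans (mul_le_mul_of_nonneg_right c4 hM0)
    · exact hQM'.trans (mul_le_mul_of_nonneg_right c5 hM0)
  · rw [hM]
    refine max_le ?_ ?_
    · refine (BA_sub_le x _ _ _).trans (max_le ?_ ?_)
      · exact hPD.trans (le_mul_of_one_le_left hD0 c1)
      · exact mul_le_mul c2 hQD hQ0 (by linarith)
    · exact mul_le_mul c3 hQD hQ0 (by linarith)

theorem lim_log [IsUltrametricDist K] [IsAlgClosed K] (hNWI : S_NWI.{u}) (hGR : S_GREEN.{u})
    (R : RMap K) (hR : 2 ≤ R.d) (a : K) (t : ℝ) (ht : 0 < t) :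
    Tendsto (fun n : ℕ => Real.log (Mx (R.iter n) a t) / (R.d : ℝ) ^ n) atTop
      (𝓝 (gr R (gauss a t ht))) := by
  obtain ⟨B, hB, hG⟩ := hGR K R hR
  set c := 1 + ‖a‖ + t + ‖a‖ / t + 1 / t with hc
  have hd1 : (1 : ℝ) < R.d := by
    have : 1 < R.d := by omega
    exact_mod_cast this
  have c1 : (1 : ℝ) ≤ c := by
    rw [hc]
    have ha : 0 ≤ ‖a‖ := norm_nonneg a
    have hat : 0 ≤ ‖a‖ / t := by positivity
    have h1t : 0 ≤ 1 / t := by positivity
    linarith
  have hbd : ∀ n : ℕ, |Real.log (Mx (R.iter n) a t) / (R.d : ℝ) ^ n - gr R (gauss a t ht)| ≤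
      (Real.log c + B) * ((R.d : ℝ)⁻¹) ^ n := by
    intro n
    obtain ⟨h1, h2⟩ := (hG (gauss a t ht)).2 n
    set D := max (gauss a t ht (R.iter n).P) (gauss a t ht (R.iter n).Q) with hD
    obtain ⟨⟨hM0, _⟩, hM, _⟩ := hNWI K (R.iter n) a t ht
    obtain ⟨h3, h4⟩ := cmp (R.iter n) a t ht _ hM
    have hdn : (0 : ℝ) < (R.d : ℝ) ^ n := by positivity
    have hlog : |Real.log (Mx (R.iter n) a t) - Real.log D| ≤ Real.log c := by
      rw [abs_le]
      constructor
      · have := Real.log_le_log h1 h3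
        rw [Real.log_mul (by linarith) hM0.ne'] at this
        linarith
      · have := Real.log_le_log hM0 h4
        rw [Real.log_mul (by linarith) h1.ne'] at this
        linarith
    have e : Real.log (Mx (R.iter n) a t) / (R.d : ℝ) ^ n - gr R (gauss a t ht) =
        (Real.log (Mx (R.iter n) a t) - Real.log D) / (R.d : ℝ) ^ n +
          (Real.log D / (R.d : ℝ) ^ n - gr R (gauss a t ht)) := by ring
    rw [e]
    refine (abs_add_le _ _).trans ?_
    rw [abs_div, abs_of_pos hdn]
    have e2 : (Real.log c + B) * ((R.d : ℝ)⁻¹) ^ n = Real.log c / (R.d : ℝ) ^ n +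
        B / (R.d : ℝ) ^ n := by
      rw [inv_pow]
      ring
    rw [e2]
    exact add_le_add (div_le_div_of_nonneg_right hlog hdn.le) h2
  have h0 : Tendsto (fun n : ℕ => (Real.log c + B) * ((R.d : ℝ)⁻¹) ^ n) atTop (𝓝 0) := by
    have := (tendsto_pow_atTop_nhds_zero_of_lt_one (r := (R.d : ℝ)⁻¹) (by positivity)
      (inv_lt_one_of_one_lt₀ hd1)).const_mul (Real.log c + B)
    simpa using this
  exact tendsto_iff_norm_sub_tendsto_zero.mpr
    (squeeze_zero (fun _ => norm_nonneg _) (fun n => by simpa using hbd n) h0)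

theorem ker_coe (a : K) (s t : ℝ) (y : BA K) : ker a s t (y : P1B K) =
    Real.log (max (lam y a) t) - Real.log (max (lam y a) s) := rfl

theorem ker_infty (a : K) (s t : ℝ) : ker a s t (OnePoint.infty : P1B K) = 0 := rfl

theorem ker_bd (a : K) (s t : ℝ) (hs : 0 < s) (hst : s < t) (x : P1B K) :
    0 ≤ ker a s t x ∧ ker a s t x ≤ Set.indicator (ball a t) (fun _ => Real.log (t / s)) x ∧
      Set.indicator (ball a s) (fun _ => Real.log (t / s)) x ≤ ker a s t x := by
  have ht : 0 < t := hs.trans hst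
  have hl0 : 0 < Real.log (t / s) := Real.log_pos (by rwa [one_lt_div hs])
  have hl : Real.log (t / s) = Real.log t - Real.log s := Real.log_div ht.ne' hs.ne'
  induction x using OnePoint.rec with
  | infty =>
    rw [ker_infty, Set.indicator_of_notMem (infty_not_mem_ball _ _),
      Set.indicator_of_notMem (infty_not_mem_ball _ _)]
    exact ⟨le_rfl, le_rfl, le_rfl⟩
  | coe y =>
    rw [ker_coe]
    have h0 := lam_nonneg y a
    by_cases h1 : lam y a < s
    · rw [Set.indicator_of_mem ((mem_ball_coe _ _ _).mpr h1),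
        Set.indicator_of_mem ((mem_ball_coe _ _ _).mpr (h1.trans hst)),
        max_eq_right h1.le, max_eq_right (h1.trans hst).le, ← hl]
      exact ⟨hl0.le, le_rfl, le_rfl⟩
    · rw [Set.indicator_of_notMem (s := ball a s) (by rw [mem_ball_coe]; exact h1)]
      push Not at h1
      rw [max_eq_left h1]
      by_cases h2 : lam y a < t
      · rw [Set.indicator_of_mem ((mem_ball_coe _ _ _).mpr h2), max_eq_right h2.le]
        have h3 : Real.log (lam y a) ≤ Real.log t := Real.log_le_log (by linarith) h2.le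
        have h4 : Real.log s ≤ Real.log (lam y a) := Real.log_le_log hs h1
        refine ⟨?_, ?_, ?_⟩ <;> linarith
      · rw [Set.indicator_of_notMem (by rw [mem_ball_coe]; exact h2)]
        push Not at h2
        rw [max_eq_left h2]
        simp

end

theorem nwlim : S_NWI.{u} → S_GREEN.{u} → S_KER.{u} → S_KERC.{u} → S_NB.{u} → S_NWLIM.{u} := by
  intro hNWI hGR hKER hKC hNB K _ _ _ R hR ρ hρ hE a r hgood
  have := hρ
  obtain ⟨_, _, hb, _⟩ := hNB K
  obtain ⟨hr, hsph⟩ := hgood
  have hbm : ∀ (t : ℝ), MeasurableSet (ball a t) := fun t => (hb a t).measurableSet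
  have hd0 : (0 : ℝ) < R.d := by
    have : 0 < R.d := by omega
    exact_mod_cast this
  have hd1 : (1 : ℝ) < R.d := by
    have : 1 < R.d := by omega
    exact_mod_cast this
  -- integral bounds
  have hup : ∀ (s t : ℝ) (hs : 0 < s) (ht : 0 < t), s < t →
      gr R (gauss a t ht) - gr R (gauss a s hs) ≤ Real.log (t / s) * ρ.real (ball a t) := by
    intro s t hs ht hst
    rw [← hKER K R hR ρ hρ hE a s t hs ht]
    have h1 : ∫ x, ker a s t x ∂ρ ≤
        ∫ x, Set.indicator (ball a t) (fun _ => Real.log (t / s)) x ∂ρ := by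
      refine integral_mono_of_nonneg ?_ ?_ ?_
      · exact ae_of_all _ fun x => (ker_bd a s t hs hst x).1
      · exact (integrable_const _).indicator (hbm t)
      · exact ae_of_all _ fun x => (ker_bd a s t hs hst x).2.1
    rwa [integral_indicator_const _ (hbm t), smul_eq_mul, mul_comm] at h1
  have hlo : ∀ (s t : ℝ) (hs : 0 < s) (ht : 0 < t), s < t →
      Real.log (t / s) * ρ.real (ball a s) ≤ gr R (gauss a t ht) - gr R (gauss a s hs) := by
    intro s t hs ht hst
    rw [← hKER K R hR ρ hρ hE a s t hs ht]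
    have hint : Integrable (fun x => ker a s t x) ρ := by
      have hc := hKC K a s t hs ht
      refine Integrable.mono' (integrable_const (Real.log (t / s))) hc.aestronglyMeasurable ?_
      refine ae_of_all _ fun x => ?_
      obtain ⟨h1, h2, _⟩ := ker_bd a s t hs hst x
      rw [Real.norm_eq_abs, abs_of_nonneg h1]
      refine h2.trans ?_
      have hl0 : 0 ≤ Real.log (t / s) := (Real.log_pos (by rwa [one_lt_div hs])).le
      exact Set.indicator_le_self' (fun _ _ => hl0) x
    have h1 : ∫ x, Set.indicator (ball a s) (fun _ => Real.log (t / s)) x ∂ρ ≤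
        ∫ x, ker a s t x ∂ρ := by
      refine integral_mono ((integrable_const _).indicator (hbm s)) hint ?_
      exact fun x => (ker_bd a s t hs hst x).2.2
    rwa [integral_indicator_const _ (hbm s), smul_eq_mul, mul_comm] at h1
  -- continuity of the measure
  have hout : Tendsto (fun k : ℕ => ρ.real (ball a (r + 1 / ((k : ℝ) + 1)))) atTop
      (𝓝 (ρ.real (ball a r))) := by
    have hanti : Antitone (fun k : ℕ => ball a (r + 1 / ((k : ℝ) + 1))) := by
      intro k l hkl x hx
      obtain ⟨y, hy, h1⟩ := hx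
      refine ⟨y, hy, lt_of_lt_of_le h1 ?_⟩
      have : 1 / ((l : ℝ) + 1) ≤ 1 / ((k : ℝ) + 1) := by
        apply one_div_le_one_div_of_le (by positivity)
        have : (k : ℝ) ≤ l := by exact_mod_cast hkl
        linarith
      linarith
    have h1 := tendsto_measure_iInter_atTop (μ := ρ)
      (s := fun k : ℕ => ball a (r + 1 / ((k : ℝ) + 1)))
      (fun k => (hbm _).nullMeasurableSet) hanti ⟨0, measure_ne_top _ _⟩
    have e : ρ (⋂ k : ℕ, ball a (r + 1 / ((k : ℝ) + 1))) = ρ (ball a r) := by
      refine le_antisymm ?_ ?_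
      · have hsub : (⋂ k : ℕ, ball a (r + 1 / ((k : ℝ) + 1))) ⊆
            ball a r ∪ {x : P1B K | ∃ y : BA K, x = (y : P1B K) ∧ lam y a = r} := by
          intro x hx
          rw [Set.mem_iInter] at hx
          obtain ⟨y, hy, _⟩ := hx 0
          subst hy
          have h2 : lam y a ≤ r := by
            refine le_of_forall_pos_lt_add fun ε hε => ?_
            obtain ⟨k, hk⟩ := exists_nat_one_div_lt hε
            have h3 := (mem_ball_coe _ _ _).mp (hx k)
            linarith
          rcases lt_or_eq_of_le h2 with h3 | h3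
          · exact Or.inl ((mem_ball_coe _ _ _).mpr h3)
          · exact Or.inr ⟨y, rfl, h3⟩
        refine (measure_mono hsub).trans ((measure_union_le _ _).trans ?_)
        rw [hsph, add_zero]
      · refine measure_mono ?_
        refine Set.subset_iInter fun k => ?_
        rintro x ⟨y, hy, h2⟩
        refine ⟨y, hy, h2.trans ?_⟩
        have : (0 : ℝ) < 1 / ((k : ℝ) + 1) := by positivity
        linarith
    rw [e] at h1
    exact (ENNReal.tendsto_toReal (measure_ne_top ρ _)).comp h1
  have hin : Tendsto (fun k : ℕ => ρ.real (ball a (r - r / ((k : ℝ) + 2)))) atTop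
      (𝓝 (ρ.real (ball a r))) := by
    have hmono : Monotone (fun k : ℕ => ball a (r - r / ((k : ℝ) + 2))) := by
      intro k l hkl x hx
      obtain ⟨y, hy, h1⟩ := hx
      refine ⟨y, hy, lt_of_lt_of_le h1 ?_⟩
      have : r / ((l : ℝ) + 2) ≤ r / ((k : ℝ) + 2) := by
        apply div_le_div_of_nonneg_left hr.le (by positivity)
        have : (k : ℝ) ≤ l := by exact_mod_cast hkl
        linarith
      linarith
    have h1 := tendsto_measure_iUnion_atTop (μ := ρ)
      (s := fun k : ℕ => ball a (r - r / ((k : ℝ) + 2))) hmono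
    have e : (⋃ k : ℕ, ball a (r - r / ((k : ℝ) + 2))) = ball a r := by
      ext x
      rw [Set.mem_iUnion]
      constructor
      · rintro ⟨k, y, hy, h2⟩
        refine ⟨y, hy, h2.trans ?_⟩
        have : (0 : ℝ) < r / ((k : ℝ) + 2) := by positivity
        linarith
      · rintro ⟨y, hy, h2⟩
        obtain ⟨k, hk⟩ := exists_nat_gt (r / (r - lam y a))
        refine ⟨k, y, hy, ?_⟩
        have h3 : 0 < r - lam y a := by linarith
        have h4 : r / ((k : ℝ) + 2) < r - lam y a := by
          rw [div_lt_iff₀ (by positivity)]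
          rw [div_lt_iff₀ h3] at hk
          nlinarith
        linarith
    rw [e] at h1
    exact (ENNReal.tendsto_toReal (measure_ne_top ρ _)).comp h1
  rw [tendsto_order]
  constructor
  · intro b hb'
    -- lower bound
    obtain ⟨k, hk⟩ := (hin.eventually (eventually_gt_nhds hb')).exists
    set s := r - r / ((k : ℝ) + 2) with hs
    have hs0 : 0 < s := by
      have : r / ((k : ℝ) + 2) < r := by
        rw [div_lt_iff₀ (by positivity)]
        nlinarith [(Nat.cast_nonneg k : (0 : ℝ) ≤ k)]
      linarith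
    have hsr : s < r := by
      have : (0 : ℝ) < r / ((k : ℝ) + 2) := by positivity
      linarith
    have hL : 0 < Real.log (r / s) := Real.log_pos (by rwa [one_lt_div hs0])
    have hlim : Tendsto (fun n : ℕ => (Real.log (Mx (R.iter n) a r) / (R.d : ℝ) ^ n -
        Real.log (Mx (R.iter n) a s) / (R.d : ℝ) ^ n) / Real.log (r / s) -
          ((R.d : ℝ)⁻¹) ^ n) atTop
        (𝓝 ((gr R (gauss a r hr) - gr R (gauss a s hs0)) / Real.log (r / s) - 0)) := by
      refine Tendsto.sub (Tendsto.div_const (Tendsto.sub ?_ ?_) _) ?_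
      · exact lim_log hNWI hGR R hR a r hr
      · exact lim_log hNWI hGR R hR a s hs0
      · exact tendsto_pow_atTop_nhds_zero_of_lt_one (by positivity) (inv_lt_one_of_one_lt₀ hd1)
    have h1 : b < (gr R (gauss a r hr) - gr R (gauss a s hs0)) / Real.log (r / s) - 0 := by
      rw [sub_zero, lt_div_iff₀ hL]
      have := hlo s r hs0 hr hsr
      nlinarith
    filter_upwards [hlim.eventually (eventually_gt_nhds h1)] with n hn
    refine hn.trans_le ?_
    obtain ⟨_, _, h3, _⟩ := hNWI K (R.iter n) a s hs0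
    have h4 := (h3 r hsr).2
    have hdn : (0 : ℝ) < (R.d : ℝ) ^ n := by positivity
    rw [← sub_div, div_div, sub_le_iff_le_add, inv_pow, ← one_div, ← add_div, div_le_div_iff₀
      (by positivity) hdn]
    calc (Real.log (Mx (R.iter n) a r) - Real.log (Mx (R.iter n) a s)) * (R.d : ℝ) ^ n
        ≤ (((Nw (R.iter n) a r : ℝ) + 1) * Real.log (r / s)) * (R.d : ℝ) ^ n :=
          mul_le_mul_of_nonneg_right h4 hdn.le
      _ = ((Nw (R.iter n) a r : ℝ) + 1) * ((R.d : ℝ) ^ n * Real.log (r / s)) := by ring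
  · intro b hb'
    obtain ⟨k, hk⟩ := (hout.eventually (eventually_lt_nhds hb')).exists
    set t := r + 1 / ((k : ℝ) + 1) with ht
    have hrt : r < t := by
      have : (0 : ℝ) < 1 / ((k : ℝ) + 1) := by positivity
      linarith
    have ht0 : 0 < t := hr.trans hrt
    have hL : 0 < Real.log (t / r) := Real.log_pos (by rwa [one_lt_div hr])
    have hlim : Tendsto (fun n : ℕ => (Real.log (Mx (R.iter n) a t) / (R.d : ℝ) ^ n -
        Real.log (Mx (R.iter n) a r) / (R.d : ℝ) ^ n) / Real.log (t / r)) atTop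
        (𝓝 ((gr R (gauss a t ht0) - gr R (gauss a r hr)) / Real.log (t / r))) := by
      refine Tendsto.div_const (Tendsto.sub ?_ ?_) _
      · exact lim_log hNWI hGR R hR a t ht0
      · exact lim_log hNWI hGR R hR a r hr
    have h1 : (gr R (gauss a t ht0) - gr R (gauss a r hr)) / Real.log (t / r) < b := by
      rw [div_lt_iff₀ hL]
      have := hup r t hr ht0 hrt
      nlinarith
    filter_upwards [hlim.eventually (eventually_lt_nhds h1)] with n hn
    refine lt_of_le_of_lt ?_ hn
    obtain ⟨_, _, h3, _⟩ := hNWI K (R.iter n) a r hr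
    have h4 := (h3 t hrt).1
    have hdn : (0 : ℝ) < (R.d : ℝ) ^ n := by positivity
    rw [← sub_div, div_div, div_le_div_iff₀ hdn (by positivity)]
    calc (Nw (R.iter n) a r : ℝ) * ((R.d : ℝ) ^ n * Real.log (t / r))
        = ((Nw (R.iter n) a r : ℝ) * Real.log (t / r)) * (R.d : ℝ) ^ n := by ring
      _ ≤ (Real.log (Mx (R.iter n) a t) - Real.log (Mx (R.iter n) a r)) * (R.d : ℝ) ^ n :=
          mul_le_mul_of_nonneg_right h4 hdn.le

end Pool.Agent.W293.BK
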