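import Pool.Agent.W95.BK.Stm

set_option autoImplicit false
open Polynomial Topology Filter MeasureTheory
open scoped ENNReal

namespace Pool.Agent.W293.BK

open Pool.Agent.W95.BK

universe u

section
variable {K : Type u} [NontriviallyNormedField K]

/-- the open exterior of a disc -/
def exr (a : K) (r : ℝ) : Set (P1B K) := {x : P1B K | ∀ y : BA K, x = (y : P1B K) → r < lam y a}

theorem mem_ball_coe (a : K) (r : ℝ) (y : BA K) : ((y : P1B K) ∈ ball a r) ↔ lam y a < r := by
  constructor
  · rintro ⟨z, hz, h⟩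
    rw [OnePoint.coe_eq_coe] at hz
    rwa [hz]
  · intro h
    exact ⟨y, rfl, h⟩

theorem infty_not_mem_ball (a : K) (r : ℝ) : (OnePoint.infty : P1B K) ∉ ball a r := by
  rintro ⟨z, hz, _⟩
  exact OnePoint.infty_ne_coe z hz

theorem exr_not_ball {a : K} {r : ℝ} {x : P1B K} (h : x ∈ exr a r) : x ∉ ball a r := by
  rintro ⟨y, hy, h1⟩
  exact absurd h1 (not_lt.mpr (h y hy).le)

/-- the condition of lying in the same discs of `F` -/
def atm (F : Finset (K × ℝ)) (x : P1B K) : Set (P1B K) :=
  {y | ∀ p ∈ F, x ∈ ball p.1 p.2 ↔ y ∈ ball p.1 p.2}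

theorem lam_nonneg (x : BA K) (a : K) : 0 ≤ lam x a := x.nonneg' _

theorem atm_nhds (hb : ∀ (a : K) (r : ℝ), IsOpen (ball a r)) (he : ∀ (a : K) (r : ℝ), IsOpen (exr a r))
    (F : Finset (K × ℝ)) (x : P1B K) (h : ∀ p ∈ F, x ∈ ball p.1 p.2 ∨ x ∈ exr p.1 p.2) :
    atm F x ∈ 𝓝 x := by
  have e : atm F x = ⋂ p ∈ F, {y | x ∈ ball p.1 p.2 ↔ y ∈ ball p.1 p.2} := by
    ext y
    simp [atm]
  rw [e, Filter.biInter_finset_mem]
  intro p hp
  rcases h p hp with h1 | h1
  · refine Filter.mem_of_superset ((hb p.1 p.2).mem_nhds h1) ?_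
    intro y hy
    exact ⟨fun _ => hy, fun _ => h1⟩
  · refine Filter.mem_of_superset ((he p.1 p.2).mem_nhds h1) ?_
    intro y hy
    exact ⟨fun h => absurd h (exr_not_ball h1), fun h => absurd h (exr_not_ball hy)⟩

theorem ball_eq (hI : S_ISO.{u}) (a b : K) (r : ℝ) (h : ‖a - b‖ < r) : ball a r = ball b r := by
  have key : ∀ c d : K, ‖c - d‖ < r → ∀ y : BA K, lam y d < r → lam y c < r := by
    intro c d hcd y hy
    exact lt_of_le_of_lt (hI K y c d).1 (max_lt hy hcd)
  ext x
  constructor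
  · rintro ⟨y, hy, h1⟩
    refine ⟨y, hy, key b a ?_ y h1⟩
    rwa [norm_sub_rev]
  · rintro ⟨y, hy, h1⟩
    exact ⟨y, hy, key a b h y h1⟩

end

open Classical in
theorem tl : S_NB.{u} → S_ISO.{u} → S_TL.{u} := by
  intro hNB hI K _ _ G hG φ ε hε
  obtain ⟨hN1, hN2, hb, he⟩ := hNB K
  -- local statement
  have hloc : ∀ x : P1B K, ∃ F : Finset (K × ℝ), (∀ p ∈ F, 0 < p.2 ∧ G p.1 p.2) ∧
      atm F x ∈ 𝓝 x ∧ ∀ y ∈ atm F x, |φ y - φ x| ≤ ε / 2 := by
    intro x
    have hU : {y | |φ y - φ x| < ε / 2} ∈ 𝓝 x := by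
      have hc : Continuous (fun y => |φ y - φ x|) := (φ.continuous.sub continuous_const).abs
      have := hc.continuousAt.preimage_mem_nhds (x := x) (t := Set.Iio (ε / 2))
        (isOpen_Iio.mem_nhds (by simp; positivity))
      exact this
    induction x using OnePoint.rec with
    | infty =>
      obtain ⟨hi, r, hr, h⟩ := hN2 _ hU
      obtain ⟨r', h1, h2, h3⟩ := hG 0 r (r + 1) hr.le (by linarith)
      refine ⟨{(0, r')}, ?_, ?_, ?_⟩
      · intro p hp
        rw [Finset.mem_singleton] at hp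
        subst hp
        exact ⟨by simpa using hr.trans h1, h3⟩
      · refine atm_nhds hb he _ _ fun p _ => Or.inr ?_
        intro y hy
        exact absurd hy (OnePoint.infty_ne_coe y)
      · intro y hy
        have h4 := hy (0, r') (Finset.mem_singleton_self _)
        induction y using OnePoint.rec with
        | infty => simp; positivity
        | coe y =>
          have h5 : ¬ (lam y 0 < r') := fun h => infty_not_mem_ball _ _ (h4.mpr ((mem_ball_coe _ _ _).mpr h))
          exact (h y (lt_of_lt_of_le h1 (not_lt.mp h5))).le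
    | coe x =>
      obtain ⟨A, B, hA, hB, hAB⟩ := hN1 x _ hU
      have hcA : ∀ p : K × ℝ, ∃ r' : ℝ, p ∈ A → lam x p.1 < r' ∧ r' < p.2 ∧ G p.1 r' := by
        intro p
        by_cases hp : p ∈ A
        · obtain ⟨r', h1, h2, h3⟩ := hG p.1 (lam x p.1) p.2 (lam_nonneg x _) (hA p hp)
          exact ⟨r', fun _ => ⟨h1, h2, h3⟩⟩
        · exact ⟨0, fun h => absurd h hp⟩
      have hcB : ∀ p : K × ℝ, ∃ r' : ℝ, p ∈ B → p.2 < r' ∧ r' < lam x p.1 ∧ G p.1 r' := by
        intro p
        by_cases hp : p ∈ B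
        · obtain ⟨r', h1, h2, h3⟩ := hG p.1 p.2 (lam x p.1) (hB p hp).1 (hB p hp).2
          exact ⟨r', fun _ => ⟨h1, h2, h3⟩⟩
        · exact ⟨0, fun h => absurd h hp⟩
      choose rA hrA using hcA
      choose rB hrB using hcB
      obtain ⟨r0, h01, h02, h03⟩ := hG 0 (lam x 0) (lam x 0 + 1) (lam_nonneg x _) (by linarith)
      set FA : Finset (K × ℝ) := A.image fun p => (p.1, rA p) with hFA
      set FB : Finset (K × ℝ) := B.image fun p => (p.1, rB p) with hFB
      refine ⟨insert (0, r0) (FA ∪ FB), ?_, ?_, ?_⟩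
      · intro p hp
        rw [Finset.mem_insert, Finset.mem_union] at hp
        rcases hp with hp | hp | hp
        · subst hp
          exact ⟨lt_of_le_of_lt (lam_nonneg x _) h01, h03⟩
        · obtain ⟨q, hq, rfl⟩ := Finset.mem_image.mp hp
          obtain ⟨h1, h2, h3⟩ := hrA q hq
          exact ⟨lt_of_le_of_lt (lam_nonneg x _) h1, h3⟩
        · obtain ⟨q, hq, rfl⟩ := Finset.mem_image.mp hp
          obtain ⟨h1, h2, h3⟩ := hrB q hq
          exact ⟨lt_of_le_of_lt (hB q hq).1 h1, h3⟩
      · refine atm_nhds hb he _ _ fun p hp => ?_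
        rw [Finset.mem_insert, Finset.mem_union] at hp
        rcases hp with hp | hp | hp
        · subst hp
          exact Or.inl ((mem_ball_coe _ _ _).mpr h01)
        · obtain ⟨q, hq, rfl⟩ := Finset.mem_image.mp hp
          exact Or.inl ((mem_ball_coe _ _ _).mpr (hrA q hq).1)
        · obtain ⟨q, hq, rfl⟩ := Finset.mem_image.mp hp
          refine Or.inr ?_
          intro y hy
          rw [OnePoint.coe_eq_coe] at hy
          subst hy
          exact (hrB q hq).2.1
      · intro y hy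
        have h0 := (hy (0, r0) (Finset.mem_insert_self _ _)).mp ((mem_ball_coe _ _ _).mpr h01)
        induction y using OnePoint.rec with
        | infty => exact absurd h0 (infty_not_mem_ball _ _)
        | coe y =>
          refine (hAB y ?_ ?_).le
          · intro p hp
            have h1 := (hy (p.1, rA p) (Finset.mem_insert_of_mem (Finset.mem_union_left _
              (Finset.mem_image_of_mem _ hp)))).mp ((mem_ball_coe _ _ _).mpr (hrA p hp).1)
            rw [mem_ball_coe] at h1
            exact h1.trans (hrA p hp).2.1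
          · intro p hp
            have h1 := hy (p.1, rB p) (Finset.mem_insert_of_mem (Finset.mem_union_right _
              (Finset.mem_image_of_mem _ hp)))
            rw [mem_ball_coe, mem_ball_coe] at h1
            have h2 : ¬ (lam y p.1 < rB p) := fun h => absurd (h1.mpr h) (not_lt.mpr (hrB p hp).2.1.le)
            exact lt_of_lt_of_le (hrB p hp).1 (not_lt.mp h2)
  choose FF h1 h2 h3 using hloc
  obtain ⟨t, ht⟩ := CompactSpace.elim_nhds_subcover (fun x => atm (FF x) x) h2
  -- removal of repetitions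
  have hrem : ∀ F₁ : Finset (K × ℝ), ∃ F : Finset (K × ℝ), F ⊆ F₁ ∧
      (∀ p ∈ F, ∀ q ∈ F, p ≠ q → ¬ (p.2 = q.2 ∧ ‖p.1 - q.1‖ < p.2)) ∧
      ∀ p ∈ F₁, ∃ q ∈ F, ball p.1 p.2 = ball q.1 q.2 := by
    intro F₁
    induction F₁ using Finset.induction_on with
    | empty => exact ⟨∅, Finset.Subset.refl _, by simp, by simp⟩
    | insert p F₁ hp ih =>
      obtain ⟨F, i1, i2, i3⟩ := ih
      by_cases hex : ∃ q ∈ F, p.2 = q.2 ∧ ‖p.1 - q.1‖ < p.2
      · obtain ⟨q, hq, hq1, hq2⟩ := hex
        refine ⟨F, i1.trans (Finset.subset_insert _ _), i2, ?_⟩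
        intro p' hp'
        rcases Finset.mem_insert.mp hp' with rfl | hp'
        · refine ⟨q, hq, ?_⟩
          rw [← hq1]
          exact ball_eq hI _ _ _ hq2
        · exact i3 p' hp'
      · push Not at hex
        refine ⟨insert p F, Finset.insert_subset_insert _ i1, ?_, ?_⟩
        · intro a ha b hb' hab
          rcases Finset.mem_insert.mp ha with ha1 | ha1
          · rcases Finset.mem_insert.mp hb' with hb1 | hb1
            · exact absurd (ha1.trans hb1.symm) hab
            · rintro ⟨e1, e2⟩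
              rw [ha1] at e1 e2
              exact absurd e2 (not_lt.mpr (hex b hb1 e1))
          · rcases Finset.mem_insert.mp hb' with hb1 | hb1
            · rintro ⟨e1, e2⟩
              rw [hb1] at e1 e2
              rw [e1, norm_sub_rev] at e2
              exact absurd e2 (not_lt.mpr (hex a ha1 e1.symm))
            · exact i2 a ha1 b hb1 hab
        · intro p' hp'
          rcases Finset.mem_insert.mp hp' with rfl | hp'
          · exact ⟨p', Finset.mem_insert_self _ _, rfl⟩
          · obtain ⟨q, hq, e⟩ := i3 p' hp'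
            exact ⟨q, Finset.mem_insert_of_mem hq, e⟩
  obtain ⟨F, f1, f2, f3⟩ := hrem (t.biUnion FF)
  refine ⟨F, ?_, f2, ?_⟩
  · intro p hp
    obtain ⟨x, _, hx⟩ := Finset.mem_biUnion.mp (f1 hp)
    exact h1 x p hx
  · intro x y hxy
    have hxy' : ∀ p ∈ t.biUnion FF, x ∈ ball p.1 p.2 ↔ y ∈ ball p.1 p.2 := by
      intro p hp
      obtain ⟨q, hq, e⟩ := f3 p hp
      rw [e]
      exact hxy q hq
    have hx : x ∈ ⋃ z ∈ t, atm (FF z) z := by
      rw [ht]
      trivial
    obtain ⟨z, hz, hxz⟩ := Set.mem_iUnion₂.mp hx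
    have hyz : y ∈ atm (FF z) z := by
      intro p hp
      exact (hxz p hp).trans (hxy' p (Finset.mem_biUnion.mpr ⟨z, hz, hp⟩))
    have e1 := h3 z x hxz
    have e2 := h3 z y hyz
    rw [abs_le] at e1 e2 ⊢
    constructor <;> linarith [e1.1, e1.2, e2.1, e2.2]

end Pool.Agent.W293.BK
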