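import Pool.Agent.W293.BK.Tl

set_option autoImplicit false
open Polynomial Topology Filter MeasureTheory
open scoped ENNReal

namespace Pool.Agent.W293.BK

open Pool.Agent.W95.BK

universe u

open Classical in
theorem ub : S_TL.{u} → S_GOOD.{u} → S_REP.{u} → S_ATOM.{u} → S_NWLIM.{u} → S_NB.{u} →
    S_ITER.{u} → S_UB.{u} := by
  intro hTL hGOOD hREP hATOM hNW hNB hIT K _ _ _ R hR ρ hρ hE φ hφ ε hε
  have := hρ
  obtain ⟨_, _, hb, _⟩ := hNB K
  obtain ⟨F, f1, f2, f3⟩ := hTL K (good ρ) (hGOOD K ρ hρ) φ (ε / 4) (by positivity)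
  have fpos : ∀ p ∈ F, 0 < p.2 := fun p hp => (f1 p hp).1
  -- representatives
  set pat : P1B K → Finset (K × ℝ) := fun x => F.filter fun p => x ∈ ball p.1 p.2 with hpat
  have hex : ∀ S : Finset (K × ℝ), ∃ z : P1B K, (∃ x, pat x = S) → pat z = S := by
    intro S
    by_cases h : ∃ x, pat x = S
    · obtain ⟨x, hx⟩ := h
      exact ⟨x, fun _ => hx⟩
    · exact ⟨OnePoint.infty, fun h' => absurd h' h⟩
  choose rep hrep using hex
  have hrep' : ∀ x, pat (rep (pat x)) = pat x := fun x => hrep (pat x) ⟨x, rfl⟩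
  have patiff : ∀ x y, pat x = pat y ↔ ∀ p ∈ F, x ∈ ball p.1 p.2 ↔ y ∈ ball p.1 p.2 := by
    intro x y
    rw [hpat]
    simp only [Finset.ext_iff, Finset.mem_filter]
    constructor
    · intro h p hp
      have := h p
      tauto
    · intro h p
      have := h p
      tauto
  set v : P1B K → ℝ := fun x => φ (rep (pat x)) + ε / 4 with hv
  have hclose : ∀ x, |φ x - φ (rep (pat x))| ≤ ε / 4 := by
    intro x
    exact f3 x _ ((patiff _ _).mp (hrep' x).symm)
  have hv1 : ∀ x, φ x ≤ v x := by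
    intro x
    have := (abs_le.mp (hclose x)).2
    rw [hv]
    simp only
    linarith
  have hv2 : ∀ x, v x ≤ φ x + ε / 2 := by
    intro x
    have := (abs_le.mp (hclose x)).1
    rw [hv]
    simp only
    linarith
  obtain ⟨c₀, c, hc⟩ := hREP K F fpos f2 v (by
    intro x y hxy
    rw [hv]
    simp only
    rw [(patiff x y).mpr hxy])
  have hATn := fun n => hATOM K (R.iter n) F fpos f2 c₀ c (fun x => by
    rw [← hc x]
    exact (hφ x).trans (hv1 x))
  -- limit
  have hlim : Tendsto (fun n => c₀ + ∑ p ∈ F, c p * ((Nw (R.iter n) p.1 p.2 : ℝ) / (R.d : ℝ) ^ n))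
      atTop (𝓝 (c₀ + ∑ p ∈ F, c p * ρ.real (ball p.1 p.2))) := by
    refine Tendsto.add tendsto_const_nhds ?_
    refine tendsto_finsetSum _ fun p hp => ?_
    exact Tendsto.const_mul _ (hNW K R hR ρ hρ hE p.1 p.2 (f1 p hp).2)
  have hbm : ∀ (a : K) (r : ℝ), MeasurableSet (ball a r) := fun a r => (hb a r).measurableSet
  have hint1 : ∀ p : K × ℝ, Integrable (fun x : P1B K => if x ∈ ball p.1 p.2 then c p else 0) ρ := by
    intro p
    have : (fun x : P1B K => if x ∈ ball p.1 p.2 then c p else 0) =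
        Set.indicator (ball p.1 p.2) (fun _ => c p) := by
      funext x
      rw [Set.indicator_apply]
    rw [this]
    exact (integrable_const (c p)).indicator (hbm _ _)
  have hintv : ∫ x, v x ∂ρ = c₀ + ∑ p ∈ F, c p * ρ.real (ball p.1 p.2) := by
    have e : v = fun x => c₀ + ∑ p ∈ F, if x ∈ ball p.1 p.2 then c p else 0 := funext hc
    rw [e, integral_add (integrable_const _) (integrable_finsetSum _ fun p _ => hint1 p),
      integral_finsetSum _ fun p _ => hint1 p]
    congr 1
    · simp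
    · refine Finset.sum_congr rfl fun p _ => ?_
      have : (fun x : P1B K => if x ∈ ball p.1 p.2 then c p else 0) =
          Set.indicator (ball p.1 p.2) (fun _ => c p) := by
        funext x
        rw [Set.indicator_apply]
      rw [this, integral_indicator_const _ (hbm _ _), smul_eq_mul, mul_comm]
  have hφint : Integrable (fun x => φ x) ρ := by
    refine Integrable.mono' (integrable_const ‖φ‖) φ.continuous.aestronglyMeasurable ?_
    exact ae_of_all _ fun x => φ.norm_coe_le_norm x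
  have hvint : Integrable v ρ := by
    have e : v = fun x => c₀ + ∑ p ∈ F, if x ∈ ball p.1 p.2 then c p else 0 := funext hc
    rw [e]
    exact (integrable_const _).add (integrable_finsetSum _ fun p _ => hint1 p)
  have hle : c₀ + ∑ p ∈ F, c p * ρ.real (ball p.1 p.2) ≤ ∫ x, φ x ∂ρ + ε / 2 := by
    rw [← hintv]
    have h1 : ∫ x, v x ∂ρ ≤ ∫ x, (φ x + ε / 2) ∂ρ :=
      integral_mono hvint (hφint.add (integrable_const _)) hv2
    rw [integral_add hφint (integrable_const _)] at h1
    simpa using h1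
  have hev : ∀ᶠ n in atTop, c₀ + ∑ p ∈ F, c p * ((Nw (R.iter n) p.1 p.2 : ℝ) / (R.d : ℝ) ^ n) ≤
      ∫ x, φ x ∂ρ + ε := by
    have := hlim.eventually (eventually_lt_nhds (b := ∫ x, φ x ∂ρ + ε) (by linarith))
    exact this.mono fun n hn => hn.le
  filter_upwards [hev] with n hn I hI
  have hd0 : (0 : ℝ) < (R.d : ℝ) ^ n := by
    have : (0 : ℝ) < R.d := by
      have : 0 < R.d := by omega
      exact_mod_cast this
    positivity
  have h1 := hATn n I hI
  have hdeg : ((R.iter n).d : ℝ) = (R.d : ℝ) ^ n := by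
    rw [(hIT K R).1 n]
    push_cast
    rfl
  have h2 : ∑ x ∈ I, ((localDeg (R.iter n) (x : P1B K) : ℝ) - 1) * φ (x : P1B K) ≤
      ∑ x ∈ I, ((localDeg (R.iter n) (x : P1B K) : ℝ) - 1) *
        (c₀ + ∑ p ∈ F, if (x : P1B K) ∈ ball p.1 p.2 then c p else 0) := by
    refine Finset.sum_le_sum fun x hx => ?_
    have h3 : (2 : ℝ) ≤ (localDeg (R.iter n) (x : P1B K) : ℝ) := by
      exact_mod_cast (hI x hx).2.2
    refine mul_le_mul_of_nonneg_left ?_ (by linarith)
    rw [← hc]
    exact hv1 _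
  refine h2.trans (h1.trans ?_)
  rw [hdeg]
  have h4 : c₀ * (R.d : ℝ) ^ n + ∑ p ∈ F, c p * (Nw (R.iter n) p.1 p.2 : ℝ) =
      (R.d : ℝ) ^ n *
        (c₀ + ∑ p ∈ F, c p * ((Nw (R.iter n) p.1 p.2 : ℝ) / (R.d : ℝ) ^ n)) := by
    rw [mul_add, mul_comm c₀, Finset.mul_sum]
    congr 1
    refine Finset.sum_congr rfl fun p _ => ?_
    field_simp
  rw [h4]
  exact mul_le_mul_of_nonneg_left hn hd0.le

end Pool.Agent.W293.BK
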